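import Pool.Agent.Y202.Pav.Tables

/-!
The check of the tables for the classification of the paving matroids on seven elements.
-/

set_option autoImplicit false

namespace Pool.Agent.Y202.Pav

theorem chk6 : chk rs6 tb6 reps6 certs6 = true := by decide +kernel

theorem chk5 : chk rs5 tb5 reps5 certs5 = true := by decide +kernel

theorem chk4 : chk rs4 tb4 reps4 certs4 = true := by decide +kernel

end Pool.Agent.Y202.Pav
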