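import Pool.Agent.Y202.Pav.Tables

/-!
The check of the table for the classification of the paving matroids of rank three on seven
elements.
-/

set_option autoImplicit false

namespace Pool.Agent.Y202.Pav

theorem chk3 : chk rs3 tb3 reps3 certs3 = true := by decide +kernel

end Pool.Agent.Y202.Pav
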