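import Mathlib

/-!
Subsets of a set with seven elements as numbers below 128, and a closure operation.
-/

set_option autoImplicit false

namespace Pool.Agent.Y202.Pav

/-- the set of the bits of `m` -/
def S (m : ℕ) : Set (Fin 7) := {i | m.testBit i.1 = true}

open Classical in
/-- the number with the set of bits `I` -/
noncomputable def code (I : Set (Fin 7)) : ℕ := Nat.ofBits (fun i : Fin 7 => decide (i ∈ I))

theorem code_lt (I : Set (Fin 7)) : code I < 128 := Nat.ofBits_lt_two_pow _

theorem S_code (I : Set (Fin 7)) : S (code I) = I := by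
  ext i
  simp only [S, code, Set.mem_ofPred_eq]
  rw [Nat.testBit_ofBits_lt _ _ i.2]
  simp

theorem S_inj {m m' : ℕ} (h : m < 128) (h' : m' < 128) (e : S m = S m') : m = m' := by
  apply Nat.eq_of_testBit_eq
  intro i
  by_cases hi : i < 7
  · have h1 : (⟨i, hi⟩ : Fin 7) ∈ S m ↔ (⟨i, hi⟩ : Fin 7) ∈ S m' := by rw [e]
    simp only [S, Set.mem_ofPred_eq] at h1
    exact Bool.eq_iff_iff.2 h1
  · have h2 : 2 ^ 7 ≤ 2 ^ i := Nat.pow_le_pow_right (by norm_num) (by omega)
    rw [Nat.testBit_lt_two_pow (lt_of_lt_of_le h h2), Nat.testBit_lt_two_pow (lt_of_lt_of_le h' h2)]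

theorem code_S {m : ℕ} (h : m < 128) : code (S m) = m := S_inj (code_lt _) h (S_code _)

/-- the number of bits below 7 -/
def popc (m : ℕ) : ℕ :=
  (m.testBit 0).toNat + (m.testBit 1).toNat + (m.testBit 2).toNat + (m.testBit 3).toNat +
    (m.testBit 4).toNat + (m.testBit 5).toNat + (m.testBit 6).toNat

theorem ncard_S (m : ℕ) : (S m).ncard = popc m := by
  classical
  have h : S m = ↑(Finset.univ.filter (fun i : Fin 7 => m.testBit i.1 = true)) := by
    ext i
    simp [S]
  rw [h, Set.ncard_coe_finset, Finset.card_filter, Fin.sum_univ_seven]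
  unfold popc
  have e : ∀ b : Bool, (if b = true then 1 else 0) = b.toNat := by decide
  simp only [e]
  rfl

/-- the `i`-th digit of `c` in base 8 -/
def dg (c i : ℕ) : ℕ := (c >>> (3 * i)) % 8

/-- the preimage of the set `m` under the map with digits `c` -/
def pre (c m : ℕ) : ℕ :=
  (m.testBit (dg c 0)).toNat + 2 * ((m.testBit (dg c 1)).toNat + 2 * ((m.testBit (dg c 2)).toNat +
    2 * ((m.testBit (dg c 3)).toNat + 2 * ((m.testBit (dg c 4)).toNat +
    2 * ((m.testBit (dg c 5)).toNat + 2 * (m.testBit (dg c 6)).toNat)))))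

theorem bit7 (b : Fin 7 → Bool) (i : Fin 7) :
    ((b 0).toNat + 2 * ((b 1).toNat + 2 * ((b 2).toNat + 2 * ((b 3).toNat + 2 * ((b 4).toNat +
      2 * ((b 5).toNat + 2 * (b 6).toNat)))))).testBit i.1 = b i := by
  revert i b
  have h : ∀ b0 b1 b2 b3 b4 b5 b6 : Bool, ∀ i : Fin 7,
      (b0.toNat + 2 * (b1.toNat + 2 * (b2.toNat + 2 * (b3.toNat + 2 * (b4.toNat +
      2 * (b5.toNat + 2 * b6.toNat)))))).testBit i.1 = ![b0, b1, b2, b3, b4, b5, b6] i := by
    decide +kernel
  intro b i
  rw [h]
  fin_cases i <;> rfl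

theorem testBit_pre (c m : ℕ) (i : Fin 7) : (pre c m).testBit i.1 = m.testBit (dg c i.1) := by
  have h := bit7 (fun i => m.testBit (dg c i.1)) i
  exact h

/-- the digits of `c` are a permutation of the numbers below seven -/
def permOK (c : ℕ) : Bool :=
  (List.range 7).all (fun i => decide (dg c i < 7)) &&
    (List.range 7).all (fun j => (List.range 7).any (fun i => dg c i == j))

theorem exists_perm {c : ℕ} (h : permOK c = true) :
    ∃ f : Equiv.Perm (Fin 7), ∀ i, (f i).1 = dg c i.1 := by
  unfold permOK at h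
  rw [Bool.and_eq_true, List.all_eq_true, List.all_eq_true] at h
  obtain ⟨h1, h2⟩ := h
  have h3 : ∀ i : Fin 7, dg c i.1 < 7 := fun i => by
    simpa using h1 i.1 (List.mem_range.2 i.2)
  let g : Fin 7 → Fin 7 := fun i => ⟨dg c i.1, h3 i⟩
  have hs : Function.Surjective g := by
    intro j
    have h4 := h2 j.1 (List.mem_range.2 j.2)
    rw [List.any_eq_true] at h4
    obtain ⟨i, hi, hij⟩ := h4
    refine ⟨⟨i, List.mem_range.1 hi⟩, ?_⟩
    apply Fin.ext
    simpa using hij
  exact ⟨Equiv.ofBijective g ⟨Finite.injective_iff_surjective.2 hs, hs⟩, fun i => rfl⟩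

theorem preimage_S {c : ℕ} {f : Equiv.Perm (Fin 7)} (hf : ∀ i, (f i).1 = dg c i.1) (m : ℕ) :
    f ⁻¹' S m = S (pre c m) := by
  ext i
  simp only [S, Set.mem_preimage, Set.mem_ofPred_eq]
  rw [testBit_pre, hf]

/-- a family of sets of size `r` such that each set of size `r + 1` contains none, one or all of its
subsets of size `r` from the family -/
def Closed (r : ℕ) (D : Set (Fin 7) → Prop) : Prop :=
  ∀ T A B C : Set (Fin 7), T.ncard = r + 1 → A ⊆ T → B ⊆ T → C ⊆ T → A.ncard = r → B.ncard = r →
    C.ncard = r → A ≠ B → D A → D B → D C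

theorem Closed.preimage {r : ℕ} {D : Set (Fin 7) → Prop} (h : Closed r D)
    (f : Equiv.Perm (Fin 7)) : Closed r (fun I => D (f ⁻¹' I)) := by
  intro T A B C hT hA hB hC h1 h2 h3 hne hDA hDB
  have e : ∀ I : Set (Fin 7), (f ⁻¹' I).ncard = I.ncard := fun I =>
    Set.ncard_preimage_of_injective_subset_range f.injective (by rw [f.surjective.range_eq]; exact Set.subset_univ _)
  exact h (f ⁻¹' T) _ _ _ (by rw [e, hT]) (Set.preimage_mono hA) (Set.preimage_mono hB)
    (Set.preimage_mono hC) (by rw [e, h1]) (by rw [e, h2]) (by rw [e, h3])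
    (fun h4 => hne (f.surjective.preimage_injective h4)) hDA hDB

def orL (X : ℕ) (l : List ℕ) : ℕ := l.foldl (fun Y m => Y ||| (1 <<< m)) X

def stepL (X : ℕ) (l : List ℕ) : ℕ :=
  if 2 ≤ (l.filter (fun m => X.testBit m)).length then orL X l else X

def cl (tb : List (List ℕ)) (path : List ℕ) (X : ℕ) : ℕ :=
  path.foldl (fun X i => stepL X (tb.getD i [])) X

/-- all members of `X` belong to `D` -/
def Sub (X : ℕ) (D : Set (Fin 7) → Prop) : Prop := ∀ m, X.testBit m = true → D (S m)

theorem testBit_one_shl (m i : ℕ) : (1 <<< m).testBit i = decide (i = m) := by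
  rw [Nat.one_shiftLeft, Nat.testBit_two_pow]
  simp [eq_comm]

theorem testBit_orL (l : List ℕ) (X i : ℕ) :
    (orL X l).testBit i = true ↔ X.testBit i = true ∨ i ∈ l := by
  unfold orL
  induction l generalizing X with
  | nil => simp
  | cons a l ih =>
    rw [List.foldl_cons, ih, Nat.testBit_or, Bool.or_eq_true, testBit_one_shl, List.mem_cons]
    simp only [decide_eq_true_eq]
    tauto

/-- `l` consists of the subsets of size `r` of a set of size `r + 1` -/
def goodL (r : ℕ) (l : List ℕ) : Prop :=
  l.Nodup ∧ ∃ T < 128, popc T = r + 1 ∧ ∀ m ∈ l, popc m = r ∧ m &&& T = m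

instance (r : ℕ) (l : List ℕ) : Decidable (goodL r l) := by
  unfold goodL
  infer_instance

theorem S_subset {m T : ℕ} (h : m &&& T = m) : S m ⊆ S T := by
  intro i hi
  simp only [S, Set.mem_ofPred_eq] at hi ⊢
  rw [← h, Nat.testBit_and, Bool.and_eq_true] at hi
  exact hi.2

theorem lt_of_and {m T : ℕ} (hT : T < 128) (h : m &&& T = m) : m < 128 := by
  rw [← h]
  exact lt_of_le_of_lt Nat.and_le_right hT

theorem stepL_sub {r : ℕ} {D : Set (Fin 7) → Prop} (hD : Closed r D) {l : List ℕ}
    (hl : goodL r l) {X : ℕ} (hX : Sub X D) : Sub (stepL X l) D := by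
  unfold stepL
  split_ifs with h
  · obtain ⟨hnd, T, hT, hT1, hl⟩ := hl
    have hnd' := hnd.filter (fun m => X.testBit m)
    have hm : ∀ x, x ∈ l.filter (fun m => X.testBit m) → x ∈ l ∧ X.testBit x = true :=
      fun x hx => List.mem_filter.1 hx
    generalize l.filter (fun m => X.testBit m) = l' at h hnd' hm
    match l', h, hnd', hm with
    | a :: b :: t, _, hnd', hm =>
      have ha := hm a (by simp)
      have hb := hm b (by simp)
      have hab : a ≠ b := by
        rintro rfl
        simp at hnd'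
      intro m hmm
      rw [testBit_orL] at hmm
      rcases hmm with hmm | hmm
      · exact hX m hmm
      · obtain ⟨a1, a2⟩ := hl a ha.1
        obtain ⟨b1, b2⟩ := hl b hb.1
        obtain ⟨c1, c2⟩ := hl m hmm
        refine hD (S T) (S a) (S b) (S m) (by rw [ncard_S, hT1]) (S_subset a2) (S_subset b2)
          (S_subset c2) (by rw [ncard_S, a1]) (by rw [ncard_S, b1]) (by rw [ncard_S, c1]) ?_
          (hX a ha.2) (hX b hb.2)
        intro e
        exact hab (S_inj (lt_of_and hT a2) (lt_of_and hT b2) e)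
  · exact hX

theorem cl_sub {r : ℕ} {D : Set (Fin 7) → Prop} (hD : Closed r D) {tb : List (List ℕ)}
    (ht : ∀ l ∈ tb, goodL r l) {path : List ℕ} {X : ℕ} (hX : Sub X D) :
    Sub (cl tb path X) D := by
  unfold cl
  induction path generalizing X with
  | nil => exact hX
  | cons i path ih =>
    rw [List.foldl_cons]
    apply ih
    by_cases hi : i < tb.length
    · rw [List.getD_eq_getElem _ _ hi]
      exact stepL_sub hD (ht _ (List.getElem_mem hi)) hX
    · rw [List.getD_eq_default _ _ (by omega)]
      exact hX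

/-- the check of one transition -/
def okT (tb reps : List (List ℕ)) (R : List ℕ) (A k c : ℕ) (path : List ℕ) : Bool :=
  permOK c && (decide (R.length < (reps.getD k []).length) &&
    (reps.getD k []).all (fun m => (cl tb path (orL (1 <<< A) R)).testBit (pre c m)))

/-- the check of all transitions -/
def chk (rs : List ℕ) (tb reps : List (List ℕ)) (certs : List (List (ℕ × ℕ × ℕ × List ℕ))) : Bool :=
  reps.length == certs.length && (reps.zip certs).all fun p => rs.all fun A =>
    p.1.contains A || p.2.any fun t => t.1 == A && okT tb reps p.1 A t.2.1 t.2.2.1 t.2.2.2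

theorem exists_rep {r : ℕ} {rs : List ℕ} {tb reps : List (List ℕ)}
    {certs : List (List (ℕ × ℕ × ℕ × List ℕ))} (hrs : ∀ m < 128, popc m = r → m ∈ rs)
    (ht : ∀ l ∈ tb, goodL r l) (h : chk rs tb reps certs = true)
    (h0 : [] ∈ reps) (h1 : ∀ R ∈ reps, R.length < 36)
    {D : Set (Fin 7) → Prop} (hD : Closed r D) (hDr : ∀ I, D I → I.ncard = r) :
    ∃ R ∈ reps, ∃ f : Equiv.Perm (Fin 7), ∀ I, D (f ⁻¹' I) ↔ ∃ m ∈ R, I = S m := by
  unfold chk at h
  rw [Bool.and_eq_true, List.all_eq_true] at h
  obtain ⟨hlen, hall⟩ := h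
  have hlen' : reps.length = certs.length := by simpa using hlen
  have key : ∀ n : ℕ, ∃ R ∈ reps, ∃ f : Equiv.Perm (Fin 7), (∀ m ∈ R, D (f ⁻¹' S m)) ∧
      ((∀ I, D (f ⁻¹' I) → ∃ m ∈ R, I = S m) ∨ n ≤ R.length) := by
    intro n
    induction n with
    | zero => exact ⟨[], h0, Equiv.refl _, by simp, Or.inr (Nat.zero_le _)⟩
    | succ n ih =>
      obtain ⟨R, hR, f, hf, hor⟩ := ih
      by_cases hn : n + 1 ≤ R.length
      · exact ⟨R, hR, f, hf, Or.inr hn⟩
      by_cases hall' : ∀ I, D (f ⁻¹' I) → ∃ m ∈ R, I = S m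
      · exact ⟨R, hR, f, hf, Or.inl hall'⟩
      have hnR : n ≤ R.length := by
        rcases hor with h | h
        · exact absurd h hall'
        · exact h
      push Not at hall'
      obtain ⟨I, hI, hIR⟩ := hall'
      set A := code I with hA
      have hSA : S A = I := S_code I
      have hAR : A ∉ R := fun h => hIR A h hSA.symm
      have hIn : I.ncard = r := by
        have h2 := hDr _ hI
        rw [Set.ncard_preimage_of_injective_subset_range f.injective
          (by rw [f.surjective.range_eq]; exact Set.subset_univ _)] at h2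
        exact h2
      have hArs : A ∈ rs := by
        apply hrs A (code_lt I)
        rw [← ncard_S, hSA, hIn]
      obtain ⟨j, hj, rfl⟩ := List.mem_iff_getElem.1 hR
      have hmem : (reps[j], certs[j]'(hlen' ▸ hj)) ∈ reps.zip certs := by
        rw [List.mem_iff_getElem]
        exact ⟨j, by simp [hlen' ▸ hj, hj], by simp⟩
      have h2 := hall _ hmem
      rw [List.all_eq_true] at h2
      have h3 := h2 A hArs
      rw [Bool.or_eq_true] at h3
      rcases h3 with h3 | h3
      · exfalso
        apply hAR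
        simpa using h3
      rw [List.any_eq_true] at h3
      obtain ⟨t, -, ht2⟩ := h3
      rw [Bool.and_eq_true] at ht2
      have h4 := ht2.2
      unfold okT at h4
      rw [Bool.and_eq_true, Bool.and_eq_true, List.all_eq_true] at h4
      obtain ⟨h5, h6, h7⟩ := h4
      obtain ⟨g, hg⟩ := exists_perm h5
      have h6' : reps[j].length < (reps.getD t.2.1 []).length := by simpa using h6
      set R' := reps.getD t.2.1 [] with hR'
      have hR'mem : R' ∈ reps := by
        by_cases hk : t.2.1 < reps.length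
        · rw [hR', List.getD_eq_getElem _ _ hk]
          exact List.getElem_mem hk
        · rw [hR', List.getD_eq_default _ _ (by omega)] at h6'
          simp at h6'
      have hsub : Sub (orL (1 <<< A) reps[j]) (fun I => D (f ⁻¹' I)) := by
        intro m hm
        rw [testBit_orL] at hm
        rcases hm with hm | hm
        · rw [testBit_one_shl] at hm
          have : m = A := by simpa using hm
          rw [this, hSA]
          exact hI
        · exact hf m hm
      have hcl := cl_sub (path := t.2.2.2) (hD.preimage f) ht hsub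
      refine ⟨R', hR'mem, f.trans g, fun m hm => ?_, Or.inr (by omega)⟩
      have h8 := hcl _ (h7 m hm)
      have h9 : (f.trans g) ⁻¹' S m = f ⁻¹' (g ⁻¹' S m) := rfl
      rw [h9, preimage_S hg]
      exact h8
  obtain ⟨R, hR, f, hf, hor⟩ := key 36
  refine ⟨R, hR, f, fun I => ⟨?_, ?_⟩⟩
  · rcases hor with h | h
    · exact h I
    · have := h1 R hR
      omega
  · rintro ⟨m, hm, rfl⟩
    exact hf m hm

end Pool.Agent.Y202.Pav
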