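import Pool.Agent.Y202.Pav.Check
import Pool.Agent.Y202.Pav.Check3

/-!
The simple paving matroids on seven elements have at most fifty isomorphism classes.
-/

set_option autoImplicit false

namespace Pool.Agent.Y202.Pav

/-- the independent sets of a paving matroid, given by its rank and the dependent sets of this
size -/
def P (p : ℕ × List ℕ) (I : Set (Fin 7)) : Prop :=
  I.ncard < p.1 ∨ (I.ncard = p.1 ∧ ¬ ∃ m ∈ p.2, I = S m)

def L50 : List (ℕ × List ℕ) :=
  (2, []) :: (7, []) :: ((reps3.filter (fun R => decide (R.length < 35))).map (Prod.mk 3) ++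
    ((reps4.filter (fun R => decide (R.length < 35))).map (Prod.mk 4) ++
    ((reps5.filter (fun R => decide (R.length < 21))).map (Prod.mk 5) ++
    (reps6.filter (fun R => decide (R.length < 7))).map (Prod.mk 6))))

theorem full3 : ∀ R ∈ reps3, R.length < 35 ∨ ∀ m < 128, popc m = 3 → m ∈ R := by
  decide +kernel

theorem full4 : ∀ R ∈ reps4, R.length < 35 ∨ ∀ m < 128, popc m = 4 → m ∈ R := by
  decide +kernel

theorem full5 : ∀ R ∈ reps5, R.length < 21 ∨ ∀ m < 128, popc m = 5 → m ∈ R := by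
  decide +kernel

theorem full6 : ∀ R ∈ reps6, R.length < 7 ∨ ∀ m < 128, popc m = 6 → m ∈ R := by
  decide +kernel

theorem L50_length : L50.length = 50 := by decide +kernel

section

variable {M : Matroid (Fin 7)} {r : ℕ}

theorem ncard_pre (f : Equiv.Perm (Fin 7)) (I : Set (Fin 7)) : (f ⁻¹' I).ncard = I.ncard :=
  Set.ncard_preimage_of_injective_subset_range f.injective
    (by rw [f.surjective.range_eq]; exact Set.subset_univ _)

theorem indep_of_lt (hE : M.E = Set.univ)
    (hp : ∀ C B : Set (Fin 7), M.IsCircuit C → M.IsBase B → B.ncard ≤ C.ncard)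
    {B : Set (Fin 7)} (hB : M.IsBase B) {I : Set (Fin 7)} (hI : I.ncard < B.ncard) :
    M.Indep I := by
  by_contra h
  have hd : M.Dep I := ⟨h, by rw [hE]; exact Set.subset_univ _⟩
  obtain ⟨C, hCI, hC⟩ := hd.exists_isCircuit_subset
  have h1 := hp C B hC hB
  have h2 := Set.ncard_le_ncard hCI (Set.toFinite _)
  omega

theorem ncard_le_of_indep {B I : Set (Fin 7)} (hB : M.IsBase B) (hI : M.Indep I) :
    I.ncard ≤ B.ncard := by
  obtain ⟨B', hB', h⟩ := hI.exists_isBase_superset
  rw [hB.ncard_eq_ncard_of_isBase hB']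
  exact Set.ncard_le_ncard h (Set.toFinite _)

theorem closed_dep (hE : M.E = Set.univ)
    (hp : ∀ C B : Set (Fin 7), M.IsCircuit C → M.IsBase B → B.ncard ≤ C.ncard)
    {B : Set (Fin 7)} (hB : M.IsBase B) (hr : B.ncard = r) :
    Closed r (fun I => I.ncard = r ∧ ¬ M.Indep I) := by
  intro T A B' C hT hA hB' hC h1 h2 h3 hne hDA hDB
  refine ⟨h3, fun hCI => ?_⟩
  -- the intersection has `r - 1` elements
  have hfin : ∀ I : Set (Fin 7), I.Finite := fun I => Set.toFinite I
  have hU : A ∪ B' ⊆ T := Set.union_subset hA hB'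
  have hU' : (A ∪ B').ncard ≤ r + 1 := by
    rw [← hT]
    exact Set.ncard_le_ncard hU (hfin _)
  have hss : A ∩ B' ⊂ A := by
    refine ⟨Set.inter_subset_left, fun h => hne ?_⟩
    apply Set.eq_of_subset_of_ncard_le (fun x hx => (h hx).2) (by rw [h1, h2]) (hfin _)
  have hlt : (A ∩ B').ncard < r := by
    rw [← h1]
    exact Set.ncard_lt_ncard hss (hfin _)
  have hie := Set.ncard_union_add_ncard_inter A B' (hfin _) (hfin _)
  have hXi : M.Indep (A ∩ B') := indep_of_lt hE hp hB (by rw [hr]; exact hlt)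
  have henc : (A ∩ B').encard < C.encard := by
    rw [← (hfin (A ∩ B')).cast_ncard_eq, ← (hfin C).cast_ncard_eq]
    rw [h3]
    exact_mod_cast hlt
  obtain ⟨e, he, hins⟩ := hXi.augment hCI henc
  have heT : e ∈ A ∪ B' := by
    have h4 : (A ∪ B') = T := by
      apply Set.eq_of_subset_of_ncard_le hU _ (hfin _)
      rw [hT]
      omega
    rw [h4]
    exact hC he.1
  have hcard : (insert e (A ∩ B')).ncard = (A ∩ B').ncard + 1 :=
    Set.ncard_insert_of_notMem he.2 (hfin _)
  rcases heT with h | h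
  · have h5 : insert e (A ∩ B') = A := by
      apply Set.eq_of_subset_of_ncard_le _ _ (hfin _)
      · exact Set.insert_subset h Set.inter_subset_left
      · rw [hcard]
        omega
    rw [h5] at hins
    exact hDA.2 hins
  · have h5 : insert e (A ∩ B') = B' := by
      apply Set.eq_of_subset_of_ncard_le _ _ (hfin _)
      · exact Set.insert_subset h Set.inter_subset_right
      · rw [hcard]
        omega
    rw [h5] at hins
    exact hDB.2 hins

/-- from the classification of the dependent sets of size `r` to that of the independent sets -/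
theorem indep_iff_P (hE : M.E = Set.univ)
    (hp : ∀ C B : Set (Fin 7), M.IsCircuit C → M.IsBase B → B.ncard ≤ C.ncard)
    {B : Set (Fin 7)} (hB : M.IsBase B) (hr : B.ncard = r) {R : List ℕ}
    {f : Equiv.Perm (Fin 7)}
    (h : ∀ I : Set (Fin 7), ((f ⁻¹' I).ncard = r ∧ ¬ M.Indep (f ⁻¹' I)) ↔ ∃ m ∈ R, I = S m)
    (I : Set (Fin 7)) : M.Indep (f ⁻¹' I) ↔ P (r, R) I := by
  unfold P
  simp only
  have h1 := ncard_pre f I
  constructor
  · intro hI
    have h2 := ncard_le_of_indep hB hI
    rw [h1, hr] at h2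
    rcases h2.lt_or_eq with h2 | h2
    · exact Or.inl h2
    · refine Or.inr ⟨h2, fun h3 => ?_⟩
      exact ((h I).2 h3).2 hI
  · rintro (h2 | ⟨h2, h3⟩)
    · exact indep_of_lt hE hp hB (by rw [h1, hr]; exact h2)
    · by_contra h4
      exact h3 ((h I).1 ⟨by rw [h1, h2], h4⟩)

theorem not_full {B : Set (Fin 7)} (hB : M.IsBase B) (hr : B.ncard = r)
    {R : List ℕ} {f : Equiv.Perm (Fin 7)}
    (h : ∀ I : Set (Fin 7), ((f ⁻¹' I).ncard = r ∧ ¬ M.Indep (f ⁻¹' I)) ↔ ∃ m ∈ R, I = S m)
    (hfull : ∀ m < 128, popc m = r → m ∈ R) : False := by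
  have h1 : f ⁻¹' (f.symm ⁻¹' B) = B := by
    rw [← Set.preimage_comp]
    simp
  have h2 := (h (f.symm ⁻¹' B)).2 ⟨code (f.symm ⁻¹' B), hfull _ (code_lt _) ?_, (S_code _).symm⟩
  · rw [h1] at h2
    exact h2.2 hB.indep
  · rw [← ncard_S, S_code, ncard_pre, hr]

theorem classify (hE : M.E = Set.univ)
    (hs : ∀ C : Set (Fin 7), M.IsCircuit C → 3 ≤ C.ncard)
    (hp : ∀ C B : Set (Fin 7), M.IsCircuit C → M.IsBase B → B.ncard ≤ C.ncard) :
    ∃ p ∈ L50, ∃ f : Equiv.Perm (Fin 7), ∀ I, M.Indep (f ⁻¹' I) ↔ P p I := by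
  obtain ⟨B, hB⟩ := M.exists_isBase
  have hle : B.ncard ≤ 7 := by
    have := Set.ncard_le_ncard (Set.subset_univ B) (Set.toFinite _)
    rwa [Set.ncard_univ, Nat.card_eq_fintype_card, Fintype.card_fin] at this
  have hge : 2 ≤ B.ncard := by
    by_contra hlt
    have hd : M.Dep ({0, 1} : Set (Fin 7)) := by
      refine ⟨fun h => ?_, by rw [hE]; exact Set.subset_univ _⟩
      have h1 := ncard_le_of_indep hB h
      rw [Set.ncard_pair (by decide)] at h1
      omega
    obtain ⟨C, hC1, hC2⟩ := hd.exists_isCircuit_subset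
    have h1 := hs C hC2
    have h2 := Set.ncard_le_ncard hC1 (Set.toFinite _)
    rw [Set.ncard_pair (by decide)] at h2
    omega
  obtain ⟨r, hr⟩ : ∃ r, B.ncard = r := ⟨_, rfl⟩
  have hcl := closed_dep hE hp hB hr
  have hcase : r = 2 ∨ r = 7 ∨ r = 3 ∨ r = 4 ∨ r = 5 ∨ r = 6 := by omega
  rcases hcase with rfl | rfl | rfl | rfl | rfl | rfl
  · refine ⟨(2, []), by simp [L50], Equiv.refl _, indep_iff_P hE hp hB hr fun I => ?_⟩
    simp only [List.not_mem_nil, false_and, exists_false, iff_false, not_and, not_not]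
    intro h1
    by_contra h2
    have hd : M.Dep ((Equiv.refl (Fin 7)) ⁻¹' I) := ⟨h2, by rw [hE]; exact Set.subset_univ _⟩
    obtain ⟨C, hC1, hC2⟩ := hd.exists_isCircuit_subset
    have h3 := hs C hC2
    have h4 := Set.ncard_le_ncard hC1 (Set.toFinite _)
    omega
  · refine ⟨(7, []), by simp [L50], Equiv.refl _, indep_iff_P hE hp hB hr fun I => ?_⟩
    simp only [List.not_mem_nil, false_and, exists_false, iff_false, not_and, not_not]
    intro h1
    have h3 : B = Set.univ := by
      apply Set.eq_of_subset_of_ncard_le (Set.subset_univ B) _ (Set.toFinite _)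
      rw [Set.ncard_univ, Nat.card_eq_fintype_card, Fintype.card_fin, hr]
    exact hB.indep.subset (by rw [h3]; exact Set.subset_univ _)
  · obtain ⟨R, hR, f, hf⟩ := exists_rep (r := 3) (rs := rs3) (tb := tb3) (reps := reps3)
      (certs := certs3) (by decide +kernel) (by decide +kernel) chk3 (by decide +kernel)
      (by decide +kernel) hcl (fun I h => h.1)
    have hR2 := full3 R hR
    rcases hR2 with h | h
    · refine ⟨(3, R), ?_, f, indep_iff_P hE hp hB hr hf⟩
      simp only [L50, List.mem_cons, List.mem_append, List.mem_map, List.mem_filter]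
      exact Or.inr (Or.inr (Or.inl ⟨R, ⟨hR, by simpa using h⟩, rfl⟩))
    · exact (not_full hB hr hf h).elim
  · obtain ⟨R, hR, f, hf⟩ := exists_rep (r := 4) (rs := rs4) (tb := tb4) (reps := reps4)
      (certs := certs4) (by decide +kernel) (by decide +kernel) chk4 (by decide +kernel)
      (by decide +kernel) hcl (fun I h => h.1)
    have hR2 := full4 R hR
    rcases hR2 with h | h
    · refine ⟨(4, R), ?_, f, indep_iff_P hE hp hB hr hf⟩
      simp only [L50, List.mem_cons, List.mem_append, List.mem_map, List.mem_filter]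
      exact Or.inr (Or.inr (Or.inr (Or.inl ⟨R, ⟨hR, by simpa using h⟩, rfl⟩)))
    · exact (not_full hB hr hf h).elim
  · obtain ⟨R, hR, f, hf⟩ := exists_rep (r := 5) (rs := rs5) (tb := tb5) (reps := reps5)
      (certs := certs5) (by decide +kernel) (by decide +kernel) chk5 (by decide +kernel)
      (by decide +kernel) hcl (fun I h => h.1)
    have hR2 := full5 R hR
    rcases hR2 with h | h
    · refine ⟨(5, R), ?_, f, indep_iff_P hE hp hB hr hf⟩
      simp only [L50, List.mem_cons, List.mem_append, List.mem_map, List.mem_filter]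
      exact Or.inr (Or.inr (Or.inr (Or.inr (Or.inl ⟨R, ⟨hR, by simpa using h⟩, rfl⟩))))
    · exact (not_full hB hr hf h).elim
  · obtain ⟨R, hR, f, hf⟩ := exists_rep (r := 6) (rs := rs6) (tb := tb6) (reps := reps6)
      (certs := certs6) (by decide +kernel) (by decide +kernel) chk6 (by decide +kernel)
      (by decide +kernel) hcl (fun I h => h.1)
    have hR2 := full6 R hR
    rcases hR2 with h | h
    · refine ⟨(6, R), ?_, f, indep_iff_P hE hp hB hr hf⟩
      simp only [L50, List.mem_cons, List.mem_append, List.mem_map, List.mem_filter]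
      exact Or.inr (Or.inr (Or.inr (Or.inr (Or.inr ⟨R, ⟨hR, by simpa using h⟩, rfl⟩))))
    · exact (not_full hB hr hf h).elim

end

/-- an isomorphism class, given by a family of sets -/
def G (p : ℕ × List ℕ) : Set (Matroid (Fin 7)) :=
  {N | N.E = Set.univ ∧ ∃ σ : Equiv.Perm (Fin 7), ∀ I : Set (Fin 7), N.Indep I ↔ P p (σ '' I)}

theorem class_eq {M : Matroid (Fin 7)} {p : ℕ × List ℕ} {f : Equiv.Perm (Fin 7)}
    (hf : ∀ I, M.Indep (f ⁻¹' I) ↔ P p I) :
    {N : Matroid (Fin 7) | N.E = Set.univ ∧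
      ∃ σ : Equiv.Perm (Fin 7), ∀ I : Set (Fin 7), N.Indep I ↔ M.Indep (σ '' I)} = G p := by
  have hf' : ∀ J, M.Indep J ↔ P p (f '' J) := fun J => by
    rw [← hf, Set.preimage_image_eq _ f.injective]
  ext N
  simp only [G, Set.mem_ofPred_eq]
  refine and_congr_right fun _ => ⟨?_, ?_⟩
  · rintro ⟨σ, h⟩
    refine ⟨σ.trans f, fun I => ?_⟩
    rw [h, hf', Equiv.coe_trans, Set.image_comp]
  · rintro ⟨σ, h⟩
    refine ⟨σ.trans f.symm, fun I => ?_⟩
    rw [h, hf', Equiv.coe_trans, ← Set.image_comp]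
    congr! 2
    simp

end Pool.Agent.Y202.Pav
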