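import Pool.Agent.Y202.Pav.Lower
import Pool.Agent.Y202.Pav.Upper

/-!
At most half of the simple matroids on seven elements are paving.
-/

set_option autoImplicit false

namespace Pool.Agent.Y202.Pav

open Set

theorem okAll : NB.all (fun t => okM t && t.1.all (fun m => decide (m < 128))) = true := by
  decide +kernel

theorem invAll : (NB.map (fun t => invC t.2.2)).Nodup := by decide +kernel

theorem NB_length : NB.length = 51 := by decide +kernel

/-- the checks in words -/
structure Good (L : List ℕ) (ib : ℕ) : Prop where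
  ne : L ≠ []
  lt : ∀ m ∈ L, m < 128
  exch : ∀ x ∈ L, ∀ y ∈ L, ∀ a < 7, x.testBit a = true → y.testBit a = false →
    ∃ b < 7, y.testBit b = true ∧ x.testBit b = false ∧ ((x ^^^ (1 <<< a)) ^^^ (1 <<< b)) ∈ L
  ind : ∀ x < 128, ib.testBit x = true ↔ ∃ m ∈ L, x &&& m = x
  simp : ∀ x < 128, popc x ≤ 2 → ib.testBit x = true
  non : ∃ x < 128, ib.testBit x = false ∧ ∀ m ∈ L, popc x < popc m

theorem good_of_ok {t : List ℕ × ℕ × ℕ} (h : okM t = true)
    (h' : t.1.all (fun m => decide (m < 128)) = true) : Good t.1 t.2.2 := by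
  obtain ⟨L, bs, ib⟩ := t
  unfold okM at h
  simp only [Bool.and_eq_true, beq_iff_eq] at h
  obtain ⟨h1, h2, h3, h4, h5, h6⟩ := h
  simp only at h' ⊢
  rw [List.all_eq_true] at h'
  refine ⟨?_, fun m hm => by simpa using h' m hm, ?_, ?_, ?_, ?_⟩
  · rintro rfl
    simp at h1
  · intro x hx y hy a ha hxa hya
    unfold Pav.exch at h3
    rw [List.all_eq_true] at h3
    have h7 := h3 x hx
    rw [List.all_eq_true] at h7
    have h8 := h7 y hy
    rw [List.all_eq_true] at h8
    have h9 := h8 a (List.mem_range.2 ha)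
    rw [hxa, hya] at h9
    simp only [Bool.not_false, Bool.and_self, Bool.not_true, Bool.false_or, List.any_eq_true,
      Bool.and_eq_true, Bool.not_eq_true', List.mem_range] at h9
    obtain ⟨b, hb, ⟨hb1, hb2⟩, hb3⟩ := h9
    refine ⟨b, hb, hb1, hb2, ?_⟩
    rw [h2, testBit_orL] at hb3
    rcases hb3 with h | h
    · simp at h
    · exact h
  · intro x hx
    rw [List.all_eq_true] at h4
    have h7 := h4 x (List.mem_range.2 hx)
    rw [beq_iff_eq] at h7
    rw [h7]
    unfold indB
    simp only [List.any_eq_true, beq_iff_eq]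
  · intro x hx hx2
    rw [List.all_eq_true] at h5
    have h7 := h5 x (List.mem_range.2 hx)
    simpa [hx2] using h7
  · rw [List.any_eq_true] at h6
    obtain ⟨x, hx, hx2⟩ := h6
    simp only [Bool.and_eq_true, Bool.not_eq_true', List.all_eq_true, decide_eq_true_eq] at hx2
    exact ⟨x, List.mem_range.1 hx, hx2.1, hx2.2⟩

/-- the matroid with given bases -/
def mat (L : List ℕ) (ib : ℕ) (h : Good L ib) : Matroid (Fin 7) :=
  Matroid.ofIsBaseOfFinite (E := Set.univ) (Set.toFinite _) (fun B => ∃ m ∈ L, B = S m)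
    (by
      obtain ⟨m, hm⟩ := List.exists_mem_of_ne_nil L h.ne
      exact ⟨S m, m, hm, rfl⟩)
    (by
      rintro _ _ ⟨x, hx, rfl⟩ ⟨y, hy, rfl⟩ a ⟨ha1, ha2⟩
      have ha1' : x.testBit a.1 = true := ha1
      have ha2' : y.testBit a.1 = false := by
        have : ¬ (y.testBit a.1 = true) := ha2
        simpa using this
      obtain ⟨b, hb, hb1, hb2, hb3⟩ := h.exch x hx y hy a.1 a.2 ha1' ha2'
      refine ⟨⟨b, hb⟩, ⟨hb1, ?_⟩, _, hb3, ?_⟩
      · change ¬ (x.testBit b = true)
        rw [hb2]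
        exact Bool.false_ne_true
      · have hab : a.1 ≠ b := by
          rintro rfl
          rw [ha1'] at hb2
          exact absurd hb2 (by decide)
        ext i
        simp only [S, Set.mem_insert_iff, Set.mem_sdiff, Set.mem_ofPred_eq, Set.mem_singleton_iff,
          Nat.testBit_xor, testBit_one_shl]
        by_cases h1 : i.1 = b
        · have h2 : i = ⟨b, hb⟩ := Fin.ext h1
          subst h2
          have h3 : (decide (b = a.1)) = false := decide_eq_false (fun h => hab h.symm)
          simp only [h3, hb2]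
          simp
        · have h2 : i ≠ ⟨b, hb⟩ := fun h => h1 (congrArg Fin.val h)
          have h3 : decide (i.1 = b) = false := decide_eq_false h1
          rw [h3, Bool.xor_false]
          by_cases h4 : i = a
          · subst h4
            simp [ha1', h2]
          · have h5 : decide (i.1 = a.1) = false := decide_eq_false (fun h => h4 (Fin.ext h))
            rw [h5, Bool.xor_false]
            simp [h2, h4])
    (fun B _ => Set.subset_univ B)

theorem mat_E {L : List ℕ} {ib : ℕ} (h : Good L ib) : (mat L ib h).E = Set.univ := rfl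

theorem mat_base {L : List ℕ} {ib : ℕ} (h : Good L ib) (B : Set (Fin 7)) :
    (mat L ib h).IsBase B ↔ ∃ m ∈ L, B = S m := Iff.rfl

theorem S_subset_iff {x m : ℕ} (hx : x < 128) : S x ⊆ S m ↔ x &&& m = x := by
  constructor
  · intro h
    apply Nat.eq_of_testBit_eq
    intro i
    rw [Nat.testBit_and]
    by_cases hi : i < 7
    · by_cases hxi : x.testBit i = true
      · have h1 : (⟨i, hi⟩ : Fin 7) ∈ S m := h hxi
        have h2 : m.testBit i = true := h1
        rw [hxi, h2]
        rfl
      · have : x.testBit i = false := by simpa using hxi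
        rw [this]
        rfl
    · have h2 : 2 ^ 7 ≤ 2 ^ i := Nat.pow_le_pow_right (by norm_num) (by omega)
      rw [Nat.testBit_lt_two_pow (lt_of_lt_of_le hx h2)]
      rfl
  · exact S_subset

theorem mat_indep {L : List ℕ} {ib : ℕ} (h : Good L ib) {x : ℕ} (hx : x < 128) :
    (mat L ib h).Indep (S x) ↔ ib.testBit x = true := by
  rw [h.ind x hx, Matroid.indep_iff]
  constructor
  · rintro ⟨B, hB, hxB⟩
    obtain ⟨m, hm, rfl⟩ := (mat_base h B).1 hB
    exact ⟨m, hm, (S_subset_iff hx).1 hxB⟩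
  · rintro ⟨m, hm, hxm⟩
    exact ⟨S m, (mat_base h _).2 ⟨m, hm, rfl⟩, (S_subset_iff hx).2 hxm⟩

theorem mat_simple {L : List ℕ} {ib : ℕ} (h : Good L ib) (C : Set (Fin 7))
    (hC : (mat L ib h).IsCircuit C) : 3 ≤ C.ncard := by
  by_contra hlt
  have h1 : popc (code C) ≤ 2 := by
    rw [← ncard_S, S_code]
    omega
  have h2 := (mat_indep h (code_lt C)).2 (h.simp _ (code_lt C) h1)
  rw [S_code] at h2
  exact hC.not_indep h2

/-- the numerical invariants of a matroid -/
noncomputable def invM (M : Matroid (Fin 7)) : ℕ × ℕ × ℕ := (dN 5 M.Indep, dN 6 M.Indep, sN M.Indep)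

theorem inv_mat {L : List ℕ} {ib : ℕ} (h : Good L ib) : invM (mat L ib h) = invC ib := by
  have h1 : ∀ k, dN k (mat L ib h).Indep = cnt ib k := by
    intro k
    unfold dN cnt
    apply ncard_eq_count
    intro x hx
    rw [ncard_S, mat_indep h hx]
    simp
  have h2 : ∀ e : Fin 7, {I : Set (Fin 7) | e ∈ I ∧ I.ncard = 4 ∧ ¬ (mat L ib h).Indep I}.ncard =
      cntE ib e.1 := by
    intro e
    unfold cntE
    apply ncard_eq_count
    intro x hx
    rw [ncard_S, mat_indep h hx]
    simp [S]
  unfold invM invC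
  rw [h1, h1]
  congr 2
  unfold sN
  simp only [h2]
  rw [Fin.sum_univ_seven]
  rfl

/-- the isomorphism class of a matroid -/
def cls (M : Matroid (Fin 7)) : Set (Matroid (Fin 7)) :=
  {N : Matroid (Fin 7) | N.E = Set.univ ∧
    ∃ σ : Equiv.Perm (Fin 7), ∀ I : Set (Fin 7), N.Indep I ↔ M.Indep (σ '' I)}

theorem self_mem {M : Matroid (Fin 7)} (hE : M.E = Set.univ) : M ∈ cls M :=
  ⟨hE, Equiv.refl _, fun I => by simp⟩

theorem inv_eq_of_cls {M N : Matroid (Fin 7)} (hE : M.E = Set.univ) (h : cls M = cls N) :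
    invM M = invM N := by
  have h1 := self_mem hE
  rw [h] at h1
  obtain ⟨-, σ, hσ⟩ := h1
  unfold invM
  rw [dN_inv σ hσ, dN_inv σ hσ, sN_inv σ hσ]

theorem not_paving {L : List ℕ} {ib : ℕ} (h : Good L ib) {M : Matroid (Fin 7)}
    (hE : M.E = Set.univ)
    (hp : ∀ C B : Set (Fin 7), M.IsCircuit C → M.IsBase B → B.ncard ≤ C.ncard) :
    cls (mat L ib h) ≠ cls M := by
  intro he
  have h1 := self_mem (mat_E h)
  rw [he] at h1
  obtain ⟨-, σ, hσ⟩ := h1
  obtain ⟨x, hx, hx1, hx2⟩ := h.non
  have hd : M.Dep (σ '' S x) := by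
    refine ⟨fun h2 => ?_, by rw [hE]; exact Set.subset_univ _⟩
    have h3 := (mat_indep h hx).1 ((hσ _).2 h2)
    rw [hx1] at h3
    exact absurd h3 (by decide)
  obtain ⟨C, hC1, hC2⟩ := hd.exists_isCircuit_subset
  obtain ⟨m, hm⟩ := List.exists_mem_of_ne_nil L h.ne
  have h4 : (mat L ib h).IsBase (S m) := (mat_base h _).2 ⟨m, hm, rfl⟩
  have h5 : M.Indep (σ '' S m) := (hσ _).1 h4.indep
  obtain ⟨B, hB, hmB⟩ := h5.exists_isBase_superset
  have h6 := hp C B hC2 hB
  have h7 := Set.ncard_le_ncard hC1 (Set.toFinite _)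
  have h8 := Set.ncard_le_ncard hmB (Set.toFinite _)
  rw [ncard_im, ncard_S] at h7 h8
  have h9 := hx2 m hm
  omega

theorem good_get (i : Fin 51) : Good (NB[i.1]'(by rw [NB_length]; exact i.2)).1
    (NB[i.1]'(by rw [NB_length]; exact i.2)).2.2 := by
  have h := okAll
  rw [List.all_eq_true] at h
  have h1 := h _ (List.getElem_mem (by rw [NB_length]; exact i.2 : i.1 < NB.length))
  rw [Bool.and_eq_true] at h1
  exact good_of_ok h1.1 h1.2

/-- the matroids which are not paving -/
def MM (i : Fin 51) : Matroid (Fin 7) := mat _ _ (good_get i)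

theorem cls_inj : Function.Injective (fun i : Fin 51 => cls (MM i)) := by
  intro i j hij
  have h1 := inv_eq_of_cls (mat_E _) hij
  unfold MM at h1
  rw [inv_mat, inv_mat] at h1
  have h2 := List.nodup_iff_injective_get.1 invAll
  have hl : (NB.map (fun t => invC t.2.2)).length = 51 := by rw [List.length_map, NB_length]
  have h3 := @h2 ⟨i.1, by rw [hl]; exact i.2⟩ ⟨j.1, by rw [hl]; exact j.2⟩ (by
    simpa using h1)
  exact Fin.ext (congrArg (fun x : Fin _ => x.1) h3)

instance : Finite (Matroid (Fin 7)) := by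
  apply Finite.of_injective (fun M : Matroid (Fin 7) => (M.E, {I | M.Indep I}))
  intro M N h
  simp only [Prod.mk.injEq] at h
  apply Matroid.ext_indep h.1
  intro I _
  have h1 : I ∈ {I | M.Indep I} ↔ I ∈ {I | N.Indep I} := by rw [h.2]
  exact h1

theorem main :
    2 * {c : Set (Matroid (Fin 7)) |
            ∃ M : Matroid (Fin 7), M.E = Set.univ ∧
              (∀ C : Set (Fin 7), M.IsCircuit C → 3 ≤ C.ncard) ∧
              (∀ C B : Set (Fin 7), M.IsCircuit C → M.IsBase B → B.ncard ≤ C.ncard) ∧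
              c = {N : Matroid (Fin 7) | N.E = Set.univ ∧
                    ∃ σ : Equiv.Perm (Fin 7), ∀ I : Set (Fin 7), N.Indep I ↔ M.Indep (σ '' I)}}.ncard
        < {c : Set (Matroid (Fin 7)) |
            ∃ M : Matroid (Fin 7), M.E = Set.univ ∧
              (∀ C : Set (Fin 7), M.IsCircuit C → 3 ≤ C.ncard) ∧
              c = {N : Matroid (Fin 7) | N.E = Set.univ ∧
                    ∃ σ : Equiv.Perm (Fin 7), ∀ I : Set (Fin 7),
                      N.Indep I ↔ M.Indep (σ '' I)}}.ncard := by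
  set PP := {c : Set (Matroid (Fin 7)) |
            ∃ M : Matroid (Fin 7), M.E = Set.univ ∧
              (∀ C : Set (Fin 7), M.IsCircuit C → 3 ≤ C.ncard) ∧
              (∀ C B : Set (Fin 7), M.IsCircuit C → M.IsBase B → B.ncard ≤ C.ncard) ∧
              c = {N : Matroid (Fin 7) | N.E = Set.univ ∧
                    ∃ σ : Equiv.Perm (Fin 7), ∀ I : Set (Fin 7), N.Indep I ↔ M.Indep (σ '' I)}}
    with hPP
  set SS := {c : Set (Matroid (Fin 7)) |
            ∃ M : Matroid (Fin 7), M.E = Set.univ ∧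
              (∀ C : Set (Fin 7), M.IsCircuit C → 3 ≤ C.ncard) ∧
              c = {N : Matroid (Fin 7) | N.E = Set.univ ∧
                    ∃ σ : Equiv.Perm (Fin 7), ∀ I : Set (Fin 7),
                      N.Indep I ↔ M.Indep (σ '' I)}} with hSS
  have hfin : ∀ X : Set (Set (Matroid (Fin 7))), X.Finite := fun X => Set.toFinite X
  -- the upper bound
  have hup : PP.ncard ≤ 50 := by
    have h1 : PP ⊆ Set.range (fun i : Fin 50 => G (L50[i.1]'(by rw [L50_length]; exact i.2))) := by
      rintro c ⟨M, hE, hs, hp, rfl⟩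
      obtain ⟨p, hp1, f, hf⟩ := classify hE hs hp
      obtain ⟨j, hj, rfl⟩ := List.mem_iff_getElem.1 hp1
      refine ⟨⟨j, by rw [← L50_length]; exact hj⟩, ?_⟩
      exact (class_eq hf).symm
    calc PP.ncard ≤ (Set.range (fun i : Fin 50 => G (L50[i.1]'(by rw [L50_length]; exact i.2)))).ncard :=
          Set.ncard_le_ncard h1 (hfin _)
      _ ≤ (Set.univ : Set (Fin 50)).ncard := by
          rw [← Set.image_univ]
          exact Set.ncard_image_le (Set.toFinite _)
      _ = 50 := by rw [Set.ncard_univ, Nat.card_eq_fintype_card, Fintype.card_fin]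
  -- the matroids which are not paving
  have hQ : (Set.range (fun i : Fin 51 => cls (MM i))).ncard = 51 := by
    rw [← Set.image_univ, Set.ncard_image_of_injective _ cls_inj, Set.ncard_univ,
      Nat.card_eq_fintype_card, Fintype.card_fin]
  have hdisj : Disjoint PP (Set.range (fun i : Fin 51 => cls (MM i))) := by
    rw [Set.disjoint_left]
    rintro c ⟨M, hE, hs, hp, rfl⟩ ⟨i, hi⟩
    exact not_paving (good_get i) hE hp hi
  have hsub : PP ∪ Set.range (fun i : Fin 51 => cls (MM i)) ⊆ SS := by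
    rintro c (⟨M, hE, hs, hp, rfl⟩ | ⟨i, rfl⟩)
    · exact ⟨M, hE, hs, rfl⟩
    · exact ⟨MM i, mat_E _, mat_simple _, rfl⟩
  have h1 := Set.ncard_le_ncard hsub (hfin _)
  rw [Set.ncard_union_eq hdisj (hfin _) (hfin _), hQ] at h1
  omega

end Pool.Agent.Y202.Pav
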