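import Pool.Agent.Y202.Pav.NTab

/-!
There are fifty-one isomorphism classes of simple matroids on seven elements which are not paving.
-/

set_option autoImplicit false

namespace Pool.Agent.Y202.Pav

open Set

/-! ### Counting sets by codes -/

theorem ncard_eq_count (Q : Set (Fin 7) → Prop) (q : ℕ → Bool)
    (h : ∀ x < 128, Q (S x) ↔ q x = true) :
    {I | Q I}.ncard = ((List.range 128).filter q).length := by
  have hmem : ∀ x, x ∈ ((List.range 128).filter q).toFinset ↔ x < 128 ∧ q x = true := fun x => by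
    rw [List.mem_toFinset, List.mem_filter, List.mem_range]
  have h1 : {I | Q I} = S '' ↑(((List.range 128).filter q).toFinset) := by
    ext I
    simp only [Set.mem_ofPred_eq, Set.mem_image, Finset.mem_coe, hmem]
    constructor
    · intro hI
      exact ⟨code I, ⟨code_lt I, (h _ (code_lt I)).1 (by rwa [S_code])⟩, S_code I⟩
    · rintro ⟨x, ⟨hx, hq⟩, rfl⟩
      exact (h x hx).2 hq
  rw [h1, Set.InjOn.ncard_image, Set.ncard_coe_finset, List.toFinset_card_of_nodup]
  · exact List.nodup_range.filter _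
  · intro x hx y hy hxy
    rw [Finset.mem_coe, hmem] at hx hy
    exact S_inj hx.1 hy.1 hxy

/-! ### Invariants of families of sets -/

/-- the number of dependent sets of size `k` -/
noncomputable def dN (k : ℕ) (Ind : Set (Fin 7) → Prop) : ℕ :=
  {I : Set (Fin 7) | I.ncard = k ∧ ¬ Ind I}.ncard

/-- the sum of the cubes of the numbers of dependent sets of size four containing an element -/
noncomputable def sN (Ind : Set (Fin 7) → Prop) : ℕ :=
  ∑ e : Fin 7, {I : Set (Fin 7) | e ∈ I ∧ I.ncard = 4 ∧ ¬ Ind I}.ncard ^ 3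

theorem ncard_im (σ : Equiv.Perm (Fin 7)) (I : Set (Fin 7)) : (σ '' I).ncard = I.ncard :=
  Set.ncard_image_of_injective I σ.injective

theorem dN_inv {A B : Set (Fin 7) → Prop} (σ : Equiv.Perm (Fin 7))
    (h : ∀ I, A I ↔ B (σ '' I)) (k : ℕ) : dN k A = dN k B := by
  unfold dN
  rw [← Set.ncard_image_of_injective _ (Set.image_injective.2 σ.injective)]
  congr 1
  ext J
  simp only [Set.mem_image, Set.mem_ofPred_eq]
  constructor
  · rintro ⟨I, ⟨h1, h2⟩, rfl⟩
    exact ⟨by rw [ncard_im, h1], fun h3 => h2 ((h I).2 h3)⟩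
  · rintro ⟨h1, h2⟩
    have h3 : σ '' (σ ⁻¹' J) = J := Set.image_preimage_eq J σ.surjective
    refine ⟨σ ⁻¹' J, ⟨?_, fun h4 => h2 ?_⟩, h3⟩
    · rw [← ncard_im σ, h3, h1]
    · rw [← h3]
      exact (h _).1 h4

theorem sN_inv {A B : Set (Fin 7) → Prop} (σ : Equiv.Perm (Fin 7))
    (h : ∀ I, A I ↔ B (σ '' I)) : sN A = sN B := by
  unfold sN
  rw [← Equiv.sum_comp σ (fun e => {I : Set (Fin 7) | e ∈ I ∧ I.ncard = 4 ∧ ¬ B I}.ncard ^ 3)]
  refine Finset.sum_congr rfl fun e _ => ?_
  congr 1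
  rw [← Set.ncard_image_of_injective _ (Set.image_injective.2 σ.injective)]
  congr 1
  ext J
  simp only [Set.mem_image, Set.mem_ofPred_eq]
  constructor
  · rintro ⟨I, ⟨h0, h1, h2⟩, rfl⟩
    exact ⟨⟨e, h0, rfl⟩, by rw [ncard_im, h1], fun h3 => h2 ((h I).2 h3)⟩
  · rintro ⟨h0, h1, h2⟩
    have h3 : σ '' (σ ⁻¹' J) = J := Set.image_preimage_eq J σ.surjective
    refine ⟨σ ⁻¹' J, ⟨h0, ?_, fun h4 => h2 ?_⟩, h3⟩
    · rw [← ncard_im σ, h3, h1]
    · rw [← h3]
      exact (h _).1 h4

/-! ### The checks -/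

/-- base exchange -/
def exch (L : List ℕ) (bs : ℕ) : Bool :=
  L.all fun x => L.all fun y => (List.range 7).all fun a =>
    !(x.testBit a && !y.testBit a) || (List.range 7).any fun b =>
      (y.testBit b && !x.testBit b) && bs.testBit ((x ^^^ (1 <<< a)) ^^^ (1 <<< b))

/-- independence by the list of bases -/
def indB (L : List ℕ) (x : ℕ) : Bool := L.any (fun m => x &&& m == x)

def cnt (ib k : ℕ) : ℕ := ((List.range 128).filter (fun x => popc x == k && !ib.testBit x)).length

def cntE (ib e : ℕ) : ℕ :=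
  ((List.range 128).filter (fun x => x.testBit e && (popc x == 4 && !ib.testBit x))).length

def invC (ib : ℕ) : ℕ × ℕ × ℕ :=
  (cnt ib 5, cnt ib 6, cntE ib 0 ^ 3 + cntE ib 1 ^ 3 + cntE ib 2 ^ 3 + cntE ib 3 ^ 3 +
    cntE ib 4 ^ 3 + cntE ib 5 ^ 3 + cntE ib 6 ^ 3)

/-- all checks for one matroid -/
def okM (t : List ℕ × ℕ × ℕ) : Bool :=
  !t.1.isEmpty && (t.2.1 == orL 0 t.1 && (exch t.1 t.2.1 &&
    ((List.range 128).all (fun x => t.2.2.testBit x == indB t.1 x) &&
    ((List.range 128).all (fun x => !decide (popc x ≤ 2) || t.2.2.testBit x) &&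
    (List.range 128).any (fun x => !t.2.2.testBit x && t.1.all (fun m => decide (popc x < popc m)))))))

end Pool.Agent.Y202.Pav
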